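import Mathlib

open MeasureTheory Set

namespace Pool.Agent.Race103

noncomputable section

/-- A sequence of numbers of `[0,1]`. -/
abbrev Uni := ℕ → unitInterval

/-- The law of a sequence of independent uniform variables on `[0,1]`. -/
def unif : Measure Uni := Measure.infinitePi (fun _ : ℕ => (volume : Measure unitInterval))

instance : IsProbabilityMeasure unif := by unfold unif; infer_instance

open Classical in
/-- The coin sequence with bias `p`: flip `i` shows heads (`true`) iff `u i < p`. -/
def coins (p : ℝ) (u : Uni) (i : ℕ) : Bool := decide ((u i : ℝ) < p)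

/-- The pattern `A` occurs in the flips `x 0, x 1, ...` with its last letter at flip number `n`
(flips are numbered from one, flip number `n` is `x (n - 1)`). -/
def EndsAt (A : List Bool) (x : ℕ → Bool) (n : ℕ) : Prop :=
  A.length ≤ n ∧ ∀ (j : ℕ) (hj : j < A.length), x (n - A.length + j) = A[j]

/-- The waiting time of the pattern `A` (`⊤` if the pattern never occurs). -/
def tau (A : List Bool) (x : ℕ → Bool) : ℕ∞ := ⨅ (n : ℕ) (_ : EndsAt A x n), (n : ℕ∞)

/-- `Pr(A > B)`, two independent sequences of bias `p`, ties decided by a fair coin. -/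
def probBeats (A B : List Bool) (p : ℝ) : ℝ :=
  (unif.prod unif).real {w | tau A (coins p w.1) < tau B (coins p w.2)}
    + 1 / 2 * (unif.prod unif).real {w | tau A (coins p w.1) = tau B (coins p w.2)}

/-- The advantage function. -/
def adv (A B : List Bool) (p : ℝ) : ℝ := probBeats A B p - 1 / 2

/-- `g` changes sign at least `m` times on `(0,1)`. -/
def SignChanges (g : ℝ → ℝ) (m : ℕ) : Prop :=
  ∃ q : Fin (m + 1) → ℝ, StrictMono q ∧ (∀ i, 0 < q i ∧ q i < 1) ∧
    ∀ i : Fin m, g (q i.castSucc) * g (q i.succ) < 0

/-! ### Measurability -/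

instance borelENat : BorelSpace ℕ∞ := ⟨borel_eq_top_of_countable.symm⟩

lemma meas_coin (p : ℝ) (k : ℕ) (b : Bool) : MeasurableSet {u : Uni | coins p u k = b} := by
  have h : MeasurableSet {u : Uni | (u k : ℝ) < p} :=
    measurableSet_lt (by fun_prop) measurable_const
  cases b with
  | true => simpa [coins] using h
  | false =>
    have := h.compl
    simpa [coins, compl_ofPred] using this

lemma meas_ends (A : List Bool) (p : ℝ) (n : ℕ) : MeasurableSet {u : Uni | EndsAt A (coins p u) n} := by
  unfold EndsAt
  refine MeasurableSet.inter (MeasurableSet.const _) ?_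
  refine measurableSet_setOfPred.2 ?_
  refine Measurable.forall fun j => ?_
  refine Measurable.forall fun hj => ?_
  exact measurableSet_setOfPred.1 (meas_coin p _ _)

lemma meas_tau (A : List Bool) (p : ℝ) : Measurable (fun u : Uni => tau A (coins p u)) := by
  classical
  unfold tau
  refine Measurable.iInf fun n => ?_
  have : (fun u : Uni => ⨅ (_ : EndsAt A (coins p u) n), (n : ℕ∞))
      = fun u => if EndsAt A (coins p u) n then (n : ℕ∞) else ⊤ := by
    funext u
    exact iInf_eq_if _
  rw [this]
  exact Measurable.ite (meas_ends A p n) measurable_const measurable_const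

lemma meas_fst (A : List Bool) (p : ℝ) : Measurable (fun w : Uni × Uni => tau A (coins p w.1)) :=
  (meas_tau A p).comp measurable_fst

lemma meas_snd (A : List Bool) (p : ℝ) : Measurable (fun w : Uni × Uni => tau A (coins p w.2)) :=
  (meas_tau A p).comp measurable_snd

/-! ### The advantage as a mean of two probabilities -/

lemma beats_eq (A B : List Bool) (p : ℝ) : probBeats A B p =
    ((unif.prod unif).real {w | tau A (coins p w.1) < tau B (coins p w.2)}
      + (unif.prod unif).real {w | tau A (coins p w.1) ≤ tau B (coins p w.2)}) / 2 := by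
  have hu : {w : Uni × Uni | tau A (coins p w.1) ≤ tau B (coins p w.2)}
      = {w | tau A (coins p w.1) < tau B (coins p w.2)}
        ∪ {w | tau A (coins p w.1) = tau B (coins p w.2)} := by
    ext w; simp [le_iff_lt_or_eq]
  have hd : Disjoint {w : Uni × Uni | tau A (coins p w.1) < tau B (coins p w.2)}
      {w | tau A (coins p w.1) = tau B (coins p w.2)} := by
    rw [Set.disjoint_left]
    intro w h1 h2
    simp only [mem_ofPred_eq] at h1 h2
    exact absurd h2 h1.ne
  have hm : MeasurableSet {w : Uni × Uni | tau A (coins p w.1) = tau B (coins p w.2)} :=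
    measurableSet_eq_fun (meas_fst A p) (meas_snd B p)
  rw [hu, measureReal_union hd hm]
  unfold probBeats
  ring

lemma beats_mono {A B A' B' : List Bool} {p p' : ℝ}
    (h : ∀ w : Uni × Uni, tau A' (coins p' w.1) ≤ tau A (coins p w.1) ∧
      tau B (coins p w.2) ≤ tau B' (coins p' w.2)) :
    probBeats A B p ≤ probBeats A' B' p' := by
  rw [beats_eq, beats_eq]
  have h1 : (unif.prod unif).real {w | tau A (coins p w.1) < tau B (coins p w.2)}
      ≤ (unif.prod unif).real {w | tau A' (coins p' w.1) < tau B' (coins p' w.2)} := by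
    refine measureReal_mono ?_ (measure_ne_top _ _)
    intro w hw
    exact lt_of_le_of_lt (h w).1 (lt_of_lt_of_le hw (h w).2)
  have h2 : (unif.prod unif).real {w | tau A (coins p w.1) ≤ tau B (coins p w.2)}
      ≤ (unif.prod unif).real {w | tau A' (coins p' w.1) ≤ tau B' (coins p' w.2)} := by
    refine measureReal_mono ?_ (measure_ne_top _ _)
    intro w hw
    exact le_trans (h w).1 (le_trans hw (h w).2)
  linarith

lemma beats_self (A : List Bool) (p : ℝ) : probBeats A A p = 1 / 2 := by
  rw [beats_eq]
  have hm : MeasurableSet {w : Uni × Uni | tau A (coins p w.1) < tau A (coins p w.2)} :=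
    measurableSet_lt (meas_fst A p) (meas_snd A p)
  have hm' : MeasurableSet {w : Uni × Uni | tau A (coins p w.2) < tau A (coins p w.1)} :=
    measurableSet_lt (meas_snd A p) (meas_fst A p)
  have hc : {w : Uni × Uni | tau A (coins p w.1) ≤ tau A (coins p w.2)}
      = {w : Uni × Uni | tau A (coins p w.2) < tau A (coins p w.1)}ᶜ := by
    ext w; simp
  have hs : (unif.prod unif).real {w : Uni × Uni | tau A (coins p w.1) < tau A (coins p w.2)}
      = (unif.prod unif).real {w : Uni × Uni | tau A (coins p w.2) < tau A (coins p w.1)} := by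
    have h0 : Measure.map Prod.swap (unif.prod unif) = unif.prod unif := Measure.prod_swap
    have h1 : (Measure.map Prod.swap (unif.prod unif))
        {w : Uni × Uni | tau A (coins p w.1) < tau A (coins p w.2)}
        = (unif.prod unif) {w : Uni × Uni | tau A (coins p w.2) < tau A (coins p w.1)} := by
      rw [Measure.map_apply measurable_swap hm]
      rfl
    rw [h0] at h1
    simp only [measureReal_def, h1]
  rw [hc, hs, probReal_compl_eq_one_sub hm']
  ring

/-! ### Comparison of waiting times -/

lemma tau_le_of {A B : List Bool} {x y : ℕ → Bool}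
    (h : ∀ n, EndsAt B y n → ∃ m, m ≤ n ∧ EndsAt A x m) : tau A x ≤ tau B y := by
  unfold tau
  refine le_iInf fun n => le_iInf fun hn => ?_
  obtain ⟨m, hm, hA⟩ := h n hn
  exact le_trans (iInf₂_le m hA) (by exact_mod_cast hm)

lemma tau_le_of_infix {A B : List Bool} (h : A <:+: B) (x : ℕ → Bool) : tau A x ≤ tau B x := by
  obtain ⟨s, t, rfl⟩ := h
  refine tau_le_of fun n hn => ?_
  obtain ⟨h1, h2⟩ := hn
  simp only [List.length_append] at h1
  refine ⟨n - t.length, Nat.sub_le _ _, by omega, fun j hj => ?_⟩
  have h3 := h2 (s.length + j) (by simp only [List.length_append]; omega)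
  have e1 : n - (s ++ A ++ t).length + (s.length + j) = n - t.length - A.length + j := by
    simp only [List.length_append]; omega
  rw [e1] at h3
  rw [h3]
  rw [List.getElem_append_left (by simp only [List.length_append]; omega),
    List.getElem_append_right (by omega)]
  simp

lemma coins_true_mono {p p' : ℝ} (hp : p ≤ p') (u : Uni) (i : ℕ) (h : coins p u i = true) :
    coins p' u i = true := by
  simp only [coins, decide_eq_true_eq] at h ⊢
  linarith

lemma coins_false_mono {p p' : ℝ} (hp : p ≤ p') (u : Uni) (i : ℕ) (h : coins p' u i = false) :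
    coins p u i = false := by
  simp only [coins, decide_eq_false_iff_not, not_lt] at h ⊢
  linarith

lemma tau_true_anti {p p' : ℝ} (hp : p ≤ p') (a : ℕ) (u : Uni) :
    tau (List.replicate a true) (coins p' u) ≤ tau (List.replicate a true) (coins p u) := by
  refine tau_le_of fun n hn => ⟨n, le_rfl, hn.1, fun j hj => ?_⟩
  have h := hn.2 j hj
  rw [List.getElem_replicate] at h ⊢
  exact coins_true_mono hp u _ h

lemma tau_false_mono {p p' : ℝ} (hp : p ≤ p') (b : ℕ) (u : Uni) :
    tau (List.replicate b false) (coins p u) ≤ tau (List.replicate b false) (coins p' u) := by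
  refine tau_le_of fun n hn => ⟨n, le_rfl, hn.1, fun j hj => ?_⟩
  have h := hn.2 j hj
  rw [List.getElem_replicate] at h ⊢
  exact coins_false_mono hp u _ h

/-! ### No two sign changes -/

lemma signs_two {g : ℝ → ℝ} {m : ℕ} (hm : 2 ≤ m) (h : SignChanges g m) :
    ∃ a b c : ℝ, a < b ∧ b < c ∧ g a * g b < 0 ∧ g b * g c < 0 := by
  obtain ⟨q, hq, -, hs⟩ := h
  refine ⟨q ⟨0, by omega⟩, q ⟨1, by omega⟩, q ⟨2, by omega⟩, hq (by simp [Fin.lt_def]),
    hq (by simp [Fin.lt_def]), ?_, ?_⟩
  · exact hs ⟨0, by omega⟩
  · exact hs ⟨1, by omega⟩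

lemma no_two_of_mono {g : ℝ → ℝ} (hg : Monotone g) {m : ℕ} (h : SignChanges g m) : m ≤ 1 := by
  by_contra hm
  obtain ⟨a, b, c, hab, hbc, h1, h2⟩ := signs_two (by omega) h
  have := hg hab.le
  have := hg hbc.le
  rcases mul_neg_iff.1 h1 with h3 | h3 <;> rcases mul_neg_iff.1 h2 with h4 | h4 <;> linarith

lemma no_two_of_anti {g : ℝ → ℝ} (hg : Antitone g) {m : ℕ} (h : SignChanges g m) : m ≤ 1 := by
  by_contra hm
  obtain ⟨a, b, c, hab, hbc, h1, h2⟩ := signs_two (by omega) h
  have := hg hab.le
  have := hg hbc.le
  rcases mul_neg_iff.1 h1 with h3 | h3 <;> rcases mul_neg_iff.1 h2 with h4 | h4 <;> linarith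

lemma none_of_nonneg {g : ℝ → ℝ} (hg : ∀ p, 0 ≤ g p) {m : ℕ} (h : SignChanges g m) : m = 0 := by
  by_contra hm
  obtain ⟨q, -, -, hs⟩ := h
  have := hs ⟨0, by omega⟩
  nlinarith [mul_nonneg (hg (q (Fin.castSucc ⟨0, by omega⟩))) (hg (q (Fin.succ ⟨0, by omega⟩)))]

lemma none_of_nonpos {g : ℝ → ℝ} (hg : ∀ p, g p ≤ 0) {m : ℕ} (h : SignChanges g m) : m = 0 := by
  by_contra hm
  obtain ⟨q, -, -, hs⟩ := h
  have := hs ⟨0, by omega⟩
  nlinarith [mul_nonneg_of_nonpos_of_nonpos (hg (q (Fin.castSucc ⟨0, by omega⟩)))
    (hg (q (Fin.succ ⟨0, by omega⟩)))]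

lemma factor_left {A B : List Bool} (h : A <:+: B) (p : ℝ) : 0 ≤ adv A B p := by
  have := beats_mono (A := A) (B := A) (A' := A) (B' := B) (p := p) (p' := p)
    (fun w => ⟨le_rfl, tau_le_of_infix h _⟩)
  rw [beats_self] at this
  unfold adv
  linarith

lemma factor_right {A B : List Bool} (h : B <:+: A) (p : ℝ) : adv A B p ≤ 0 := by
  have := beats_mono (A := A) (B := B) (A' := B) (B' := B) (p := p) (p' := p)
    (fun w => ⟨tau_le_of_infix h _, le_rfl⟩)
  rw [beats_self] at this
  unfold adv
  linarith

lemma runs_mono (a b : ℕ) : Monotone (adv (List.replicate a true) (List.replicate b false)) := by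
  intro p p' hp
  have := beats_mono (A := List.replicate a true) (B := List.replicate b false)
    (A' := List.replicate a true) (B' := List.replicate b false) (p := p) (p' := p')
    (fun w => ⟨tau_true_anti hp a _, tau_false_mono hp b _⟩)
  unfold adv
  linarith

lemma runs_anti (a b : ℕ) : Antitone (adv (List.replicate a false) (List.replicate b true)) := by
  intro p p' hp
  have := beats_mono (A := List.replicate a false) (B := List.replicate b true)
    (A' := List.replicate a false) (B' := List.replicate b true) (p := p') (p' := p)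
    (fun w => ⟨tau_false_mono hp a _, tau_true_anti hp b _⟩)
  unfold adv
  linarith

/-! ### One coin -/

lemma real_coin {p : ℝ} (hp : 0 ≤ p) (hp1 : p ≤ 1) (k : ℕ) :
    unif.real {u : Uni | coins p u k = true} = p := by
  have h1 : {u : Uni | coins p u k = true}
      = (Function.eval k) ⁻¹' (Iio (⟨p, hp, hp1⟩ : unitInterval)) := by
    ext u
    simp only [coins, decide_eq_true_eq, mem_ofPred_eq, mem_preimage, Function.eval, mem_Iio]
    rfl
  have h2 : unif {u : Uni | coins p u k = true} = ENNReal.ofReal p := by
    rw [h1]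
    unfold unif
    rw [(measurePreserving_eval_infinitePi (fun _ : ℕ => (volume : Measure unitInterval))
      k).measure_preimage measurableSet_Iio.nullMeasurableSet]
    simp
  rw [measureReal_def, h2, ENNReal.toReal_ofReal hp]

lemma real_coin_false {p : ℝ} (hp : 0 ≤ p) (hp1 : p ≤ 1) (k : ℕ) :
    unif.real {u : Uni | coins p u k = false} = 1 - p := by
  have h : {u : Uni | coins p u k = false} = {u : Uni | coins p u k = true}ᶜ := by
    ext u; simp
  rw [h, probReal_compl_eq_one_sub (meas_coin p k true), real_coin hp hp1]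

lemma meas_run (p : ℝ) (L : ℕ) (b : Bool) : MeasurableSet {u : Uni | ∀ i < L, coins p u i = b} := by
  refine measurableSet_setOfPred.2 ?_
  refine Measurable.forall fun i => ?_
  refine Measurable.forall fun hi => ?_
  exact measurableSet_setOfPred.1 (meas_coin p _ _)

lemma real_run_false {L : ℕ} {p : ℝ} (hp : 0 ≤ p) (hp1 : p ≤ 1) :
    1 - L * p ≤ unif.real {u : Uni | ∀ i < L, coins p u i = false} := by
  have h1 : {u : Uni | ∀ i < L, coins p u i = false}ᶜ
      ⊆ ⋃ i ∈ Finset.range L, {u : Uni | coins p u i = true} := by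
    intro u hu
    simp only [mem_compl_iff, mem_ofPred_eq, not_forall] at hu
    obtain ⟨i, hi, h⟩ := hu
    simp only [mem_iUnion, mem_ofPred_eq, Finset.mem_range]
    exact ⟨i, hi, by simpa using h⟩
  have h2 : unif.real {u : Uni | ∀ i < L, coins p u i = false}ᶜ ≤ L * p := by
    calc unif.real {u : Uni | ∀ i < L, coins p u i = false}ᶜ
        ≤ unif.real (⋃ i ∈ Finset.range L, {u : Uni | coins p u i = true}) :=
          measureReal_mono h1 (measure_ne_top _ _)
      _ ≤ ∑ i ∈ Finset.range L, unif.real {u : Uni | coins p u i = true} :=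
          measureReal_biUnion_finset_le _ _
      _ = L * p := by
          rw [Finset.sum_congr rfl (fun i _ => real_coin hp hp1 i)]
          simp
  rw [probReal_compl_eq_one_sub (meas_run p L false)] at h2
  linarith

lemma real_run_true {L : ℕ} {p : ℝ} (hp : 0 ≤ p) (hp1 : p ≤ 1) :
    1 - L * (1 - p) ≤ unif.real {u : Uni | ∀ i < L, coins p u i = true} := by
  have h1 : {u : Uni | ∀ i < L, coins p u i = true}ᶜ
      ⊆ ⋃ i ∈ Finset.range L, {u : Uni | coins p u i = false} := by
    intro u hu
    simp only [mem_compl_iff, mem_ofPred_eq, not_forall] at hu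
    obtain ⟨i, hi, h⟩ := hu
    simp only [mem_iUnion, mem_ofPred_eq, Finset.mem_range]
    exact ⟨i, hi, by simpa using h⟩
  have h2 : unif.real {u : Uni | ∀ i < L, coins p u i = true}ᶜ ≤ L * (1 - p) := by
    calc unif.real {u : Uni | ∀ i < L, coins p u i = true}ᶜ
        ≤ unif.real (⋃ i ∈ Finset.range L, {u : Uni | coins p u i = false}) :=
          measureReal_mono h1 (measure_ne_top _ _)
      _ ≤ ∑ i ∈ Finset.range L, unif.real {u : Uni | coins p u i = false} :=
          measureReal_biUnion_finset_le _ _
      _ = L * (1 - p) := by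
          rw [Finset.sum_congr rfl (fun i _ => real_coin_false hp hp1 i)]
          simp only [Finset.sum_const, Finset.card_range, nsmul_eq_mul]
  rw [probReal_compl_eq_one_sub (meas_run p L true)] at h2
  linarith

lemma tau_run_le {c : Bool} {L : ℕ} {x : ℕ → Bool} (hx : ∀ i < L, x i = c) :
    tau (List.replicate L c) x ≤ (L : ℕ∞) := by
  unfold tau
  have he : EndsAt (List.replicate L c) x L := by
    refine ⟨by simp, fun j hj => ?_⟩
    rw [List.length_replicate] at hj
    rw [List.getElem_replicate]
    simpa using hx j hj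
  exact iInf₂_le L he

lemma le_tau_run {c : Bool} {L a : ℕ} (ha : 1 ≤ a) {x : ℕ → Bool} (hx : ∀ i < L, x i = !c) :
    ((L + 1 : ℕ) : ℕ∞) ≤ tau (List.replicate a c) x := by
  unfold tau
  refine le_iInf fun n => le_iInf fun hn => ?_
  have h5 := hn.1
  by_contra hlt
  have hn2 : n < L + 1 := by
    rw [not_le] at hlt
    exact_mod_cast hlt
  rw [List.length_replicate] at h5
  have h6 := hn.2 (a - 1) (by rw [List.length_replicate]; omega)
  rw [List.getElem_replicate, List.length_replicate, hx _ (by omega)] at h6
  cases c <;> simp at h6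

lemma adv_pos {a b : ℕ} (ha : 1 ≤ a) (hb : 1 ≤ b) :
    0 < adv (List.replicate a true) (List.replicate b false) (1 - 1 / (8 * (a : ℝ))) := by
  have hL0 : (1 : ℝ) ≤ a := by exact_mod_cast ha
  have hd : 1 / (8 * (a : ℝ)) ≤ 1 := by
    rw [div_le_one (by positivity)]; linarith
  have hd0 : 0 ≤ 1 / (8 * (a : ℝ)) := by positivity
  have hLd : (a : ℝ) * (1 / (8 * (a : ℝ))) = 1 / 8 := by field_simp
  set p : ℝ := 1 - 1 / (8 * (a : ℝ)) with hpdef
  have hp : 0 ≤ p := by linarith
  have hp1 : p ≤ 1 := by linarith
  have h1 := real_run_true (L := a) hp hp1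
  set S : Set Uni := {u : Uni | ∀ i < a, coins p u i = true} with hS
  have h7 : 7 / 8 ≤ unif.real S := by
    have : (a : ℝ) * (1 - p) = 1 / 8 := by rw [hpdef]; linarith
    linarith
  have h2 : (unif.prod unif).real (S ×ˢ S) = unif.real S * unif.real S := measureReal_prod_prod _ _
  have h3 : (unif.prod unif).real (S ×ˢ S) ≤ (unif.prod unif).real
      {w | tau (List.replicate a true) (coins p w.1)
        < tau (List.replicate b false) (coins p w.2)} := by
    refine measureReal_mono ?_ (measure_ne_top _ _)
    intro w hw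
    obtain ⟨hx, hy⟩ := hw
    simp only [hS, mem_ofPred_eq] at hx hy ⊢
    refine lt_of_le_of_lt (tau_run_le hx) (lt_of_lt_of_le ?_ (le_tau_run hb (L := a) hy))
    exact_mod_cast Nat.lt_succ_self a
  have h4 : 0 ≤ (unif.prod unif).real
      {w : Uni × Uni | tau (List.replicate a true) (coins p w.1)
        = tau (List.replicate b false) (coins p w.2)} := measureReal_nonneg
  unfold adv probBeats
  nlinarith

lemma adv_neg {a b : ℕ} (ha : 1 ≤ a) (hb : 1 ≤ b) :
    adv (List.replicate a true) (List.replicate b false) (1 / (8 * (b : ℝ))) < 0 := by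
  have hL0 : (1 : ℝ) ≤ b := by exact_mod_cast hb
  set p : ℝ := 1 / (8 * (b : ℝ)) with hpdef
  have hp : 0 ≤ p := by positivity
  have hLp : (b : ℝ) * p = 1 / 8 := by
    rw [hpdef]; field_simp
  have hp1 : p ≤ 1 := by nlinarith
  have h1 := real_run_false (L := b) hp hp1
  set S : Set Uni := {u : Uni | ∀ i < b, coins p u i = false} with hS
  have h7 : 7 / 8 ≤ unif.real S := by linarith
  have h2 : (unif.prod unif).real (S ×ˢ S) = unif.real S * unif.real S := measureReal_prod_prod _ _
  have h3 : (unif.prod unif).real (S ×ˢ S) ≤ (unif.prod unif).real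
      {w | tau (List.replicate b false) (coins p w.2)
        < tau (List.replicate a true) (coins p w.1)} := by
    refine measureReal_mono ?_ (measure_ne_top _ _)
    intro w hw
    obtain ⟨hx, hy⟩ := hw
    simp only [hS, mem_ofPred_eq] at hx hy ⊢
    refine lt_of_le_of_lt (tau_run_le hy) (lt_of_lt_of_le ?_ (le_tau_run ha (L := b) hx))
    exact_mod_cast Nat.lt_succ_self b
  have hm : MeasurableSet {w : Uni × Uni | tau (List.replicate b false) (coins p w.2)
      < tau (List.replicate a true) (coins p w.1)} :=
    measurableSet_lt (meas_snd _ p) (meas_fst _ p)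
  have hc : {w : Uni × Uni | tau (List.replicate a true) (coins p w.1)
      ≤ tau (List.replicate b false) (coins p w.2)}
      = {w : Uni × Uni | tau (List.replicate b false) (coins p w.2)
      < tau (List.replicate a true) (coins p w.1)}ᶜ := by
    ext w; simp
  have h4 := beats_eq (List.replicate a true) (List.replicate b false) p
  have h5 : (unif.prod unif).real {w : Uni × Uni | tau (List.replicate a true) (coins p w.1)
      < tau (List.replicate b false) (coins p w.2)} ≤ (unif.prod unif).real {w : Uni × Uni |
      tau (List.replicate a true) (coins p w.1)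
      ≤ tau (List.replicate b false) (coins p w.2)} := by
    refine measureReal_mono ?_ (measure_ne_top _ _)
    intro w hw
    simp only [mem_ofPred_eq] at hw ⊢
    exact hw.le
  rw [hc, probReal_compl_eq_one_sub hm] at h4 h5
  unfold adv
  nlinarith

lemma one_change {a b : ℕ} (ha : 1 ≤ a) (hb : 1 ≤ b) :
    SignChanges (adv (List.replicate a true) (List.replicate b false)) 1 := by
  have ha0 : (1 : ℝ) ≤ a := by exact_mod_cast ha
  have hb0 : (1 : ℝ) ≤ b := by exact_mod_cast hb
  have h1 : 1 / (8 * (b : ℝ)) ≤ 1 / 8 := by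
    apply one_div_le_one_div_of_le <;> linarith
  have h2 : 1 / (8 * (a : ℝ)) ≤ 1 / 8 := by
    apply one_div_le_one_div_of_le <;> linarith
  have h3 : 0 < 1 / (8 * (b : ℝ)) := by positivity
  have h4 : 0 < 1 / (8 * (a : ℝ)) := by positivity
  refine ⟨![1 / (8 * (b : ℝ)), 1 - 1 / (8 * (a : ℝ))], ?_, ?_, ?_⟩
  · rw [Fin.strictMono_iff_lt_succ]
    intro i
    fin_cases i
    simp only [Fin.zero_eta, Fin.isValue, Fin.castSucc_zero, Matrix.cons_val_zero,
      Fin.succ_zero_eq_one, Matrix.cons_val_one]
    linarith
  · intro i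
    fin_cases i
    · simp only [Fin.zero_eta, Fin.isValue, Matrix.cons_val_zero]
      constructor <;> linarith
    · change 0 < 1 - 1 / (8 * (a : ℝ)) ∧ 1 - 1 / (8 * (a : ℝ)) < 1
      constructor <;> linarith
  · intro i
    fin_cases i
    simp only [Fin.zero_eta, Fin.isValue, Fin.castSucc_zero, Matrix.cons_val_zero,
      Fin.succ_zero_eq_one, Matrix.cons_val_one]
    exact mul_neg_of_neg_of_pos (adv_neg ha hb) (adv_pos ha hb)

/-! ### A pattern of length one -/

lemma single_or (c : Bool) (B : List Bool) : [c] <:+: B ∨ B = List.replicate B.length (!c) := by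
  by_cases h : c ∈ B
  · left
    obtain ⟨s, t, rfl⟩ := List.append_of_mem h
    exact ⟨s, t, by simp⟩
  · right
    refine List.eq_replicate_iff.2 ⟨rfl, fun d hd => ?_⟩
    have : d ≠ c := fun hdc => h (hdc ▸ hd)
    cases c <;> cases d <;> simp_all

lemma length_one_left {A B : List Bool} (hA : A.length = 1) {m : ℕ}
    (h : SignChanges (adv A B) m) : m ≤ 1 := by
  obtain ⟨c, rfl⟩ := List.length_eq_one_iff.1 hA
  rcases single_or c B with h1 | h1
  · exact (none_of_nonneg (factor_left h1) h).le.trans (by norm_num)
  · rw [h1] at h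
    cases c with
    | true => exact no_two_of_mono (runs_mono 1 B.length) h
    | false => exact no_two_of_anti (runs_anti 1 B.length) h

lemma length_one_right {A B : List Bool} (hB : B.length = 1) {m : ℕ}
    (h : SignChanges (adv A B) m) : m ≤ 1 := by
  obtain ⟨c, rfl⟩ := List.length_eq_one_iff.1 hB
  rcases single_or c A with h1 | h1
  · exact (none_of_nonpos (factor_right h1) h).le.trans (by norm_num)
  · rw [h1] at h
    cases c with
    | true => exact no_two_of_anti (runs_anti A.length 1) h
    | false => exact no_two_of_mono (runs_mono A.length 1) h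

end

end Pool.Agent.Race103
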